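import Pool.Agent.U849.IR.Lim

/-!
# Irreducibility from the mean square
-/

set_option autoImplicit false
set_option maxHeartbeats 1000000

namespace Pool.Agent.U849.IR

open NumberField Filter Topology IsDedekindDomain Polynomial Module
open Pool.Agent.W401.Cheb Pool.Agent.W569.FM Pool.Agent.R401.Img Pool.Agent.R401 Pool.Agent
open Pool.Agent.R401.DS Pool.Agent.U849.DG

section schur

variable {k : Type*} [Field k] {n : ℕ} {G : Type*} [Group G]

theorem one_mem_commutant (ρ : G →* GL (Fin n) k) : (1 : Matrix (Fin n) (Fin n) k) ∈ commutant ρ := by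
  rw [mem_commutant]
  intro g
  rw [one_mul, mul_one]

/-- no stable subspaces -/
def Irr (ρ : G →* GL (Fin n) k) : Prop :=
  0 < n ∧ ∀ W : Submodule k (Fin n → k), Stab ρ W → W = ⊥ ∨ W = ⊤

theorem finrank_pos' (hn : 0 < n) (ρ : G →* GL (Fin n) k) : 0 < finrank k (commutant ρ) := by
  have : Nonempty (Fin n) := ⟨⟨0, hn⟩⟩
  rw [Module.finrank_pos_iff]
  refine ⟨⟨1, one_mem_commutant ρ⟩, 0, fun h => ?_⟩
  have h1 : (1 : Matrix (Fin n) (Fin n) k) = 0 := congrArg Subtype.val h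
  exact one_ne_zero h1

theorem irr_of_finrank (hn : 0 < n) {ρ : G →* GL (Fin n) k} (hss : SS ρ) (h : finrank k (commutant ρ) < 2) :
    Irr ρ := by
  classical
  refine ⟨hn, fun W hW => ?_⟩
  by_contra hcon
  push Not at hcon
  obtain ⟨hb, ht⟩ := hcon
  have : Nonempty (Fin n) := ⟨⟨0, hn⟩⟩
  obtain ⟨W', hW', hc⟩ := hss W hW
  let P : (Fin n → k) →ₗ[k] (Fin n → k) := W.subtype.comp (W.projectionOnto W' hc)
  have hP1 : ∀ w ∈ W, P w = w := fun w hw => by
    change ((W.projectionOnto W' hc w : W) : Fin n → k) = w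
    exact congrArg Subtype.val (Submodule.projectionOnto_apply_left hc ⟨w, hw⟩)
  have hP2 : ∀ w ∈ W', P w = 0 := fun w hw => by
    change ((W.projectionOnto W' hc w : W) : Fin n → k) = 0
    rw [Submodule.projectionOnto_apply_right hc ⟨w, hw⟩]
    rfl
  have hcomm : ∀ g x, P ((mt ρ g).mulVec x) = (mt ρ g).mulVec (P x) := by
    intro g x
    obtain ⟨w, hw, w', hw', rfl⟩ := Submodule.mem_sup.1 (show x ∈ W ⊔ W' by rw [hc.sup_eq_top]; trivial)
    rw [Matrix.mulVec_add, map_add, map_add, hP1 w hw, hP2 w' hw', hP1 _ (hW g w hw), hP2 _ (hW' g w' hw'),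
      add_zero, add_zero]
  have hM : LinearMap.toMatrix' P ∈ commutant ρ := by
    rw [mem_commutant]
    intro g
    apply Matrix.toLin'.injective
    rw [Matrix.toLin'_mul, Matrix.toLin'_mul, Matrix.toLin'_toMatrix']
    apply LinearMap.ext
    intro x
    change P (Matrix.toLin' (mt ρ g) x) = Matrix.toLin' (mt ρ g) (P x)
    rw [Matrix.toLin'_apply, Matrix.toLin'_apply]
    exact hcomm g x
  have h1 : finrank k (commutant ρ) = 1 := by
    have := finrank_pos' hn ρ
    omega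
  have hne : (⟨1, one_mem_commutant ρ⟩ : commutant ρ) ≠ 0 := by
    intro h
    have h1 : (1 : Matrix (Fin n) (Fin n) k) = 0 := congrArg Subtype.val h
    exact one_ne_zero h1
  obtain ⟨c, hc'⟩ := (finrank_eq_one_iff_of_nonzero' _ hne).1 h1 ⟨_, hM⟩
  have h2 : c • (1 : Matrix (Fin n) (Fin n) k) = LinearMap.toMatrix' P := congrArg Subtype.val hc'
  have h3 : ∀ x, P x = c • x := by
    intro x
    have h4 : P = Matrix.toLin' (c • (1 : Matrix (Fin n) (Fin n) k)) := by
      rw [h2, Matrix.toLin'_toMatrix']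
    rw [h4, Matrix.toLin'_apply, Matrix.smul_mulVec, Matrix.one_mulVec]
  obtain ⟨w, hw, hw0⟩ := Submodule.exists_mem_ne_zero_of_ne_bot hb
  have hW'b : W' ≠ ⊥ := by
    intro h
    apply ht
    have := hc.sup_eq_top
    rwa [h, sup_bot_eq] at this
  obtain ⟨w', hw', hw'0⟩ := Submodule.exists_mem_ne_zero_of_ne_bot hW'b
  have h4 : c = 0 := by
    have := h3 w'
    rw [hP2 w' hw'] at this
    exact (smul_eq_zero.1 this.symm).resolve_right hw'0
  have h5 := h3 w
  rw [hP1 w hw, h4, zero_smul] at h5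
  exact hw0 h5

theorem finrank_of_irr [IsAlgClosed k] {ρ : G →* GL (Fin n) k} (h : Irr ρ) : finrank k (commutant ρ) = 1 := by
  classical
  obtain ⟨hn, h⟩ := h
  have : Nonempty (Fin n) := ⟨⟨0, hn⟩⟩
  have hne : (⟨1, one_mem_commutant ρ⟩ : commutant ρ) ≠ 0 := by
    intro h
    have h1 : (1 : Matrix (Fin n) (Fin n) k) = 0 := congrArg Subtype.val h
    exact one_ne_zero h1
  rw [finrank_eq_one_iff_of_nonzero' _ hne]
  rintro ⟨M, hM⟩
  have : Nontrivial (Fin n → k) := Function.nontrivial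
  obtain ⟨c, hc⟩ := Module.End.exists_eigenvalue (Matrix.toLin' M)
  refine ⟨c, Subtype.ext ?_⟩
  have hst : Stab ρ (Module.End.eigenspace (Matrix.toLin' M) c) := by
    intro g x hx
    rw [Module.End.mem_eigenspace_iff, Matrix.toLin'_apply] at hx ⊢
    have h1 := mem_commutant.1 hM g
    rw [Matrix.mulVec_mulVec, h1, ← Matrix.mulVec_mulVec, hx, Matrix.mulVec_smul]
  have h1 := (h _ hst).resolve_left hc
  change c • (1 : Matrix (Fin n) (Fin n) k) = M
  apply Matrix.toLin'.injective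
  apply LinearMap.ext
  intro x
  have h2 : x ∈ Module.End.eigenspace (Matrix.toLin' M) c := by
    rw [h1]
    trivial
  rw [Module.End.mem_eigenspace_iff] at h2
  rw [h2, Matrix.toLin'_apply, Matrix.smul_mulVec, Matrix.one_mulVec]

end schur

variable {F : Type} [Field F] [NumberField F] {n : ℕ} {K : Type} [Field K] [NumberField K]

/-- **finite image from one `ℓ`-adic representation** -/
theorem open_of_traces {E : Set (HeightOneSpectrum (𝓞 F))} (hE : DensityZero E)
    (t : HeightOneSpectrum (𝓞 F) → 𝓞 K)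
    {C : ℝ} (hC : ∃ᶠ x : ℕ in atTop, ∀ σ : K →+* ℂ,
      ∑ᶠ v ∈ {v : HeightOneSpectrum (𝓞 F) | Ideal.absNorm v.asIdeal ≤ x ∧ v ∉ E}, ‖σ (t v)‖ ^ 2 ≤
        C * Nat.primeCounting x)
    {k : Type} [Field k] [TopologicalSpace k] [IsTopologicalRing k] [T2Space k] [CharZero k]
    (j : K →+* k) (ρ : Gam F →* GL (Fin n) k) (hρ : Continuous ρ) (hss : SS ρ)
    (hatt : ∀ v, v ∉ E → ∀ P : Ideal (ZBar F), Above v P → ∀ g, FrobAt (Ideal.absNorm v.asIdeal) P g →
      (mt ρ g⁻¹).trace = j (t v)) : IsOpen (ρ.ker : Set (Gam F)) := by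
  set ε : ℝ := 1 / (2 * ((n : ℝ) ^ 2 + 1)) with hε
  have hε0 : 0 < ε := by positivity
  have hε1 : (n : ℝ) ^ 2 * ε < 1 / 2 := by
    rw [hε, mul_one_div, div_lt_div_iff₀ (by positivity) (by norm_num)]
    linarith
  obtain ⟨Y, hY, hYcnt⟩ := exists_finite E t hC (half_pos hε0)
  exact open_ker ρ hρ hss (Y := (fun y : 𝓞 K => j y) '' Y) (hY.image _)
      (E ∪ {v | v ∉ E ∧ t v ∉ Y}) (by
      intro v hv P hP g hg
      simp only [Set.mem_union, not_or, Set.mem_ofPred_eq, not_and, not_not] at hv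
      obtain ⟨hvE, hvY⟩ := hv
      refine ⟨_, hvY hvE, ?_⟩
      change j (t v) = _
      rw [hatt v hvE P hP g hg]) hε0.le
      (hε1.trans (by norm_num))
      (DG.freq_union hE _ hε0 hYcnt)

end Pool.Agent.U849.IR
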