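import Mathlib
import Pool.Agent.R401.Img

/-!
# The mean square of the character of a finite group, and matrices of finite order
-/

set_option autoImplicit false
set_option maxHeartbeats 1000000

namespace Pool.Agent.U849.IR

open Pool.Agent.R401.Img Module

section avg

variable {k : Type*} [Field k] {n : ℕ} {G : Type*} [Group G]

/-- the matrices which commute with a representation -/
def commutant (ρ : G →* GL (Fin n) k) : Submodule k (Matrix (Fin n) (Fin n) k) where
  carrier := {M | ∀ g, M * (ρ g : Matrix (Fin n) (Fin n) k) = (ρ g : Matrix (Fin n) (Fin n) k) * M}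
  add_mem' := by
    intro a b ha hb g
    rw [add_mul, mul_add, ha g, hb g]
  zero_mem' := by
    intro g
    rw [zero_mul, mul_zero]
  smul_mem' := by
    intro c a ha g
    rw [smul_mul_assoc, mul_smul_comm, ha g]

theorem mem_commutant {ρ : G →* GL (Fin n) k} {M : Matrix (Fin n) (Fin n) k} :
    M ∈ commutant ρ ↔ ∀ g, M * mt ρ g = mt ρ g * M := Iff.rfl

/-- the representation -/
noncomputable def rep (ρ : G →* GL (Fin n) k) : Representation k G (Fin n → k) := act ρ

theorem rep_apply (ρ : G →* GL (Fin n) k) (g : G) : rep ρ g = Matrix.toLin' (mt ρ g) := rfl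

theorem mem_inv_iff (ρ : G →* GL (Fin n) k) (M : Matrix (Fin n) (Fin n) k) :
    Matrix.toLin' M ∈ (Representation.linHom (rep ρ) (rep ρ)).invariants ↔ M ∈ commutant ρ := by
  rw [mem_commutant, Representation.mem_invariants]
  refine forall_congr' fun g => ?_
  rw [Representation.linHom_apply, rep_apply, rep_apply]
  have h1 : Matrix.toLin' (mt ρ g) ∘ₗ Matrix.toLin' M ∘ₗ Matrix.toLin' (mt ρ g⁻¹) =
      Matrix.toLin' (mt ρ g * (M * mt ρ g⁻¹)) := by
    rw [Matrix.toLin'_mul, Matrix.toLin'_mul]
  rw [h1, (Matrix.toLin'.injective).eq_iff]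
  have h2 : mt ρ g * mt ρ g⁻¹ = 1 := by
    rw [← mt_mul, mul_inv_cancel]
    unfold Pool.Agent.R401.Img.mt
    rw [map_one, Units.val_one]
  have h3 : mt ρ g⁻¹ * mt ρ g = 1 := by
    rw [← mt_mul, inv_mul_cancel]
    unfold Pool.Agent.R401.Img.mt
    rw [map_one, Units.val_one]
  constructor
  · intro h
    conv_lhs => rw [← h]
    rw [mul_assoc, mul_assoc, h3, mul_one]
  · intro h
    rw [← mul_assoc, ← h, mul_assoc, h2, mul_one]

theorem finrank_eq (ρ : G →* GL (Fin n) k) :
    finrank k (Representation.linHom (rep ρ) (rep ρ)).invariants = finrank k (commutant ρ) := by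
  have h1 : (commutant ρ).map (Matrix.toLin' : Matrix (Fin n) (Fin n) k ≃ₗ[k] _).toLinearMap =
      (Representation.linHom (rep ρ) (rep ρ)).invariants := by
    ext f
    constructor
    · rintro ⟨M, hM, rfl⟩
      exact (mem_inv_iff ρ M).2 hM
    · intro hf
      refine ⟨LinearMap.toMatrix' f, ?_, ?_⟩
      · refine (mem_inv_iff ρ _).1 ?_
        rwa [Matrix.toLin'_toMatrix']
      · exact Matrix.toLin'_toMatrix' f
  rw [← h1]
  exact LinearEquiv.finrank_map_eq _ _

/-- **orthogonality** -/
theorem avg [CharZero k] [Fintype G] (ρ : G →* GL (Fin n) k) :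
    (Nat.card G : k)⁻¹ * ∑ g : G, (mt ρ g⁻¹).trace * (mt ρ g).trace = finrank k (commutant ρ) := by
  have h0 : (Nat.card G : k) ≠ 0 := Nat.cast_ne_zero.2 Nat.card_pos.ne'
  have : Invertible (Nat.card G : k) := invertibleOfNonzero h0
  have h1 := Representation.card_inv_mul_sum_char_eq_finrank (Representation.linHom (rep ρ) (rep ρ))
  rw [finrank_eq] at h1
  rw [← h1]
  congr 1
  refine Finset.sum_congr rfl fun g _ => ?_
  rw [Representation.char_linHom]
  unfold Representation.character
  rw [rep_apply, rep_apply, Matrix.trace_toLin'_eq, Matrix.trace_toLin'_eq]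

end avg

section fin

open scoped ComplexOrder MatrixOrder Matrix

/-- the trace of the inverse of a matrix of finite order -/
theorem trace_inv {n e : ℕ} (he : 0 < e) {A B : Matrix (Fin n) (Fin n) ℂ} (hA : A ^ e = 1) (hAB : A * B = 1) :
    B.trace = star A.trace := by
  classical
  set H : Matrix (Fin n) (Fin n) ℂ := ∑ i ∈ Finset.range e, (A ^ i)ᴴ * A ^ i with hH
  have hpos : H.PosDef := by
    have h1 : H = 1 + ∑ i ∈ (Finset.range e).erase 0, (A ^ i)ᴴ * A ^ i := by
      rw [hH, ← Finset.add_sum_erase _ _ (Finset.mem_range.2 he)]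
      simp
    rw [h1]
    refine Matrix.PosDef.one.add_posSemidef ?_
    exact Matrix.posSemidef_sum _ fun i _ => Matrix.posSemidef_conjTranspose_mul_self _
  have hinv : Aᴴ * H * A = H := by
    rw [hH, Finset.mul_sum, Finset.sum_mul]
    have h1 : ∀ i, Aᴴ * ((A ^ i)ᴴ * A ^ i) * A = (A ^ (i + 1))ᴴ * A ^ (i + 1) := by
      intro i
      rw [pow_succ, Matrix.conjTranspose_mul]
      simp only [mul_assoc]
    rw [Finset.sum_congr rfl fun i _ => h1 i]
    have h2 := Finset.sum_range_succ' (fun i => (A ^ i)ᴴ * A ^ i) e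
    rw [Finset.sum_range_succ] at h2
    rw [hA, pow_zero] at h2
    exact (add_right_cancel h2).symm
  have hu : IsUnit H.det := by
    rw [isUnit_iff_ne_zero]
    exact hpos.det_pos.ne'
  have h1 : B = H⁻¹ * Aᴴ * H := by
    have h2 : Aᴴ * H = H * B := by
      calc Aᴴ * H = Aᴴ * H * (A * B) := by rw [hAB, mul_one]
        _ = Aᴴ * H * A * B := by rw [mul_assoc, mul_assoc, mul_assoc]
        _ = H * B := by rw [hinv]
    rw [mul_assoc, h2, ← mul_assoc, Matrix.nonsing_inv_mul _ hu, one_mul]
  rw [h1, mul_assoc, Matrix.trace_mul_comm, mul_assoc, Matrix.mul_nonsing_inv _ hu, mul_one,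
    Matrix.trace_conjTranspose]

end fin

end Pool.Agent.U849.IR
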