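import Pool.Agent.U849.IR.Avg
import Pool.Agent.U849.DG.Main

/-!
# The mean square of the traces of Frobenius elements of a representation with finite image
-/

set_option autoImplicit false
set_option maxHeartbeats 1000000

namespace Pool.Agent.U849.IR

open NumberField Filter Topology IsDedekindDomain Polynomial Module
open Pool.Agent.W401.Cheb Pool.Agent.W569.FM Pool.Agent.R401.Img Pool.Agent.R401 Pool.Agent
open Pool.Agent.R401.DS Pool.Agent.U849.DG

variable {F : Type} [Field F] [NumberField F] {n : ℕ}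

/-- the primes of a set of density zero do not matter -/
theorem dens_compl {E : Set (HeightOneSpectrum (𝓞 F))} (hE : DensityZero E)
    {P : HeightOneSpectrum (𝓞 F) → Prop} {L : ℝ} (h : Tendsto (dens P) atTop (𝓝 L)) :
    Tendsto (dens fun v => v ∉ E ∧ P v) atTop (𝓝 L) := by
  have h1 : Tendsto (fun N => dens P N - dens (fun v => v ∈ E) N) atTop (𝓝 L) := by
    have := h.sub (densityZero_iff.1 hE)
    rwa [sub_zero] at this
  refine tendsto_of_tendsto_of_tendsto_of_le_of_le h1 h (fun N => ?_) (fun N => ?_)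
  · have h2 : dens P N ≤ dens (fun v => v ∈ E ∪ {v | v ∉ E ∧ P v}) N := by
      refine Eng.dens_le (fun v hv => ?_) N
      by_cases hvE : v ∈ E
      · exact Or.inl hvE
      · exact Or.inr ⟨hvE, hv⟩
    have h3 := dens_union E {v | v ∉ E ∧ P v} N
    have h4 : dens (fun v => v ∈ {v | v ∉ E ∧ P v}) N = dens (fun v => v ∉ E ∧ P v) N := rfl
    change dens P N - dens (fun v => v ∈ E) N ≤ dens (fun v => v ∉ E ∧ P v) N
    rw [← h4]
    linarith
  · exact Eng.dens_le (fun v hv => hv.2) N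

/-- the mean square of the numbers `a v` -/
noncomputable def meanSq (E : Set (HeightOneSpectrum (𝓞 F))) (a : HeightOneSpectrum (𝓞 F) → ℂ) (x : ℕ) : ℝ :=
  (∑ᶠ v ∈ {v : HeightOneSpectrum (𝓞 F) | Ideal.absNorm v.asIdeal ≤ x ∧ v ∉ E}, ‖a v‖ ^ 2) / Nat.primeCounting x

/-- **The mean square**, for a complex representation with finite image. -/
theorem limit_complex (R : GK F →* GL (Fin n) ℂ) (hR : IsOpen (R.ker : Set (GK F)))
    [Fintype (GK F ⧸ R.ker)]
    {E : Set (HeightOneSpectrum (𝓞 F))} (hE : DensityZero E) {a : HeightOneSpectrum (𝓞 F) → ℂ}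
    (ha : ∀ v, v ∉ E → ∀ P : Ideal (ZBar F), Above v P → ∀ g, FrobAt (Ideal.absNorm v.asIdeal) P g →
      (mt R g⁻¹).trace = a v) :
    Tendsto (meanSq E a) atTop (𝓝 ((Nat.card (GK F ⧸ R.ker) : ℝ)⁻¹ *
      ∑ γ : GK F ⧸ R.ker, ‖(mt (QuotientGroup.kerLift R) γ).trace‖ ^ 2)) := by
  classical
  set τ : (GK F ⧸ R.ker) →* GL (Fin n) ℂ := QuotientGroup.kerLift R with hτ
  have hτg : ∀ g : GK F, mt τ (g : (GK F ⧸ R.ker)) = mt R g := fun g => rfl
  set w : (GK F ⧸ R.ker) → ℝ := fun γ => ‖(mt τ γ⁻¹).trace‖ ^ 2 with hw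
  set V : Finset ℝ := Finset.univ.image w with hV
  set C : ℝ → Set (GK F) := fun y => {σ | w (σ : (GK F ⧸ R.ker)) = y} with hC
  have hCconj : ∀ y, ∀ σ ∈ C y, ∀ α : GK F, α * σ * α⁻¹ ∈ C y := by
    intro y σ hσ α
    change w ((α * σ * α⁻¹ : GK F) : (GK F ⧸ R.ker)) = y
    have h1 : (mt τ ((α * σ * α⁻¹ : GK F) : (GK F ⧸ R.ker))⁻¹).trace = (mt τ ((σ : (GK F ⧸ R.ker))⁻¹)).trace := by
      have h2 : ((α * σ * α⁻¹ : GK F) : (GK F ⧸ R.ker))⁻¹ = (α : (GK F ⧸ R.ker)) * ((σ : (GK F ⧸ R.ker))⁻¹ * (α : (GK F ⧸ R.ker))⁻¹) := by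
        have : ((α * σ * α⁻¹ : GK F) : (GK F ⧸ R.ker)) = (α : (GK F ⧸ R.ker)) * (σ : (GK F ⧸ R.ker)) * (α : (GK F ⧸ R.ker))⁻¹ := rfl
        rw [this]
        group
      rw [h2, mt_mul, Matrix.trace_mul_comm, ← mt_mul, inv_mul_cancel_right]
    change ‖(mt τ ((α * σ * α⁻¹ : GK F) : (GK F ⧸ R.ker))⁻¹).trace‖ ^ 2 = y
    rw [h1]
    exact hσ
  have hCU : ∀ y, ∀ σ ∈ C y, ∀ u ∈ R.ker, σ * u ∈ C y := by
    intro y σ hσ u hu
    change w ((σ * u : GK F) : (GK F ⧸ R.ker)) = y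
    have h1 : ((σ * u : GK F) : (GK F ⧸ R.ker)) = (σ : (GK F ⧸ R.ker)) := by
      rw [QuotientGroup.eq, mul_inv_rev, inv_mul_cancel_right]
      exact inv_mem hu
    rw [h1]
    exact hσ
  have hcheb := fun y => Pool.Agent.Y142.chebK F R.ker hR (C y) (hCconj y) (hCU y)
  have hlim := fun y => dens_compl hE (hcheb y)
  -- the values
  have hval : ∀ v, v ∉ E → ∀ y, ‖a v‖ ^ 2 = y ↔ ∃ σ ∈ C y, IsFrob v σ := by
    intro v hv y
    constructor
    · intro h
      obtain ⟨σ, Q, hQ, hQv, hσ⟩ := Pool.Agent.W401.Frob.exists_frob v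
      refine ⟨σ, ?_, Q, hQ, hQv, hσ⟩
      change ‖(mt τ ((σ : (GK F ⧸ R.ker))⁻¹)).trace‖ ^ 2 = y
      have h1 : mt τ ((σ : (GK F ⧸ R.ker))⁻¹) = mt R σ⁻¹ := rfl
      rw [h1, ha v hv Q ⟨hQ, hQv⟩ σ hσ]
      exact h
    · rintro ⟨σ, hσC, Q, hQ, hQv, hσ⟩
      have h2 : ‖(mt τ ((σ : (GK F ⧸ R.ker))⁻¹)).trace‖ ^ 2 = y := hσC
      have h1 : mt τ ((σ : (GK F ⧸ R.ker))⁻¹) = mt R σ⁻¹ := rfl
      rw [h1, ha v hv Q ⟨hQ, hQv⟩ σ hσ] at h2
      exact h2
  have hmem : ∀ v, v ∉ E → ‖a v‖ ^ 2 ∈ V := by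
    intro v hv
    obtain ⟨σ, hσ, -⟩ := (hval v hv _).1 rfl
    have h1 : w (σ : (GK F ⧸ R.ker)) = ‖a v‖ ^ 2 := hσ
    rw [← h1]
    exact Finset.mem_image_of_mem _ (Finset.mem_univ _)
  have hmean : ∀ x : ℕ, meanSq E a x =
      ∑ y ∈ V, y * dens (fun v => v ∉ E ∧ ∃ σ ∈ C y, IsFrob v σ) x := by
    intro x
    have hxf : {v : HeightOneSpectrum (𝓞 F) | Ideal.absNorm v.asIdeal ≤ x ∧ v ∉ E}.Finite :=
      (finite_norm_le F x).subset fun _ h => h.1
    unfold meanSq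
    rw [finsum_mem_eq_finite_toFinset_sum _ hxf]
    rw [← Finset.sum_fiberwise_of_maps_to (s := hxf.toFinset) (t := V) (g := fun v => ‖a v‖ ^ 2) (by
      intro v hv
      exact hmem v ((Set.Finite.mem_toFinset _).1 hv).2), Finset.sum_div]
    refine Finset.sum_congr rfl fun y _ => ?_
    have h1 : ∑ v ∈ hxf.toFinset with ‖a v‖ ^ 2 = y, ‖a v‖ ^ 2 =
        ((hxf.toFinset.filter fun v => ‖a v‖ ^ 2 = y).card : ℝ) * y := by
      rw [Finset.sum_congr rfl fun v hv => (Finset.mem_filter.1 hv).2, Finset.sum_const, nsmul_eq_mul]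
    have h2 : Nat.card {v : HeightOneSpectrum (𝓞 F) // Ideal.absNorm v.asIdeal ≤ x ∧
        (v ∉ E ∧ ∃ σ ∈ C y, IsFrob v σ)} = (hxf.toFinset.filter fun v => ‖a v‖ ^ 2 = y).card := by
      refine Nat.subtype_card _ fun v => ?_
      rw [Finset.mem_filter, Set.Finite.mem_toFinset, Set.mem_ofPred_eq]
      constructor
      · rintro ⟨⟨h3, h4⟩, h5⟩
        exact ⟨h3, h4, (hval v h4 y).1 h5⟩
      · rintro ⟨h3, h4, h5⟩
        exact ⟨⟨h3, h4⟩, (hval v h4 y).2 h5⟩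
    unfold dens
    rw [h1, h2]
    ring
  have h3 : Tendsto (meanSq E a) atTop (𝓝 (∑ y ∈ V, y *
      ((((QuotientGroup.mk : GK F → (GK F ⧸ R.ker)) '' C y).ncard : ℝ) / (Nat.card (GK F ⧸ R.ker) : ℝ)))) := by
    rw [show meanSq E a = fun x => ∑ y ∈ V, y * dens (fun v => v ∉ E ∧ ∃ σ ∈ C y, IsFrob v σ) x from
      funext hmean]
    exact tendsto_finsetSum _ fun y _ => (hlim y).const_mul y
  have h4 : ∑ y ∈ V, y * ((((QuotientGroup.mk : GK F → (GK F ⧸ R.ker)) '' C y).ncard : ℝ) / (Nat.card (GK F ⧸ R.ker) : ℝ)) =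
      (Nat.card (GK F ⧸ R.ker) : ℝ)⁻¹ * ∑ γ : (GK F ⧸ R.ker), ‖(mt τ γ).trace‖ ^ 2 := by
    have h5 : ∀ y, (QuotientGroup.mk : GK F → (GK F ⧸ R.ker)) '' C y = ((Finset.univ.filter fun γ : (GK F ⧸ R.ker) => w γ = y : Finset (GK F ⧸ R.ker)) : Set (GK F ⧸ R.ker)) := by
      intro y
      ext γ
      rw [Finset.coe_filter, Set.mem_ofPred_eq]
      constructor
      · rintro ⟨σ, hσ, rfl⟩
        exact ⟨Finset.mem_univ _, hσ⟩
      · rintro ⟨-, h⟩
        induction γ using QuotientGroup.induction_on with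
        | H σ => exact ⟨σ, h, rfl⟩
    have h6 : ∑ γ : (GK F ⧸ R.ker), ‖(mt τ γ).trace‖ ^ 2 = ∑ γ : (GK F ⧸ R.ker), w γ := by
      rw [← Equiv.sum_comp (Equiv.inv (GK F ⧸ R.ker))]
      rfl
    rw [h6, ← Finset.sum_fiberwise_of_maps_to (s := Finset.univ) (t := V) (g := w)
      (fun γ _ => Finset.mem_image_of_mem _ (Finset.mem_univ _)), Finset.mul_sum]
    refine Finset.sum_congr rfl fun y _ => ?_
    rw [h5, Set.ncard_coe_finset, Finset.sum_congr rfl fun γ hγ => (Finset.mem_filter.1 hγ).2,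
      Finset.sum_const, nsmul_eq_mul]
    ring
  rw [h4] at h3
  exact h3

/-- the matrices commuting with a representation and with its lift to the quotient by the kernel -/
theorem commutant_kerLift {k : Type*} [Field k] (ρ : GK F →* GL (Fin n) k) :
    commutant (QuotientGroup.kerLift ρ) = commutant ρ := by
  ext M
  rw [mem_commutant, mem_commutant]
  constructor
  · intro h g
    exact h (g : GK F ⧸ ρ.ker)
  · intro h γ
    induction γ using QuotientGroup.induction_on with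
    | H g => exact h g

/-- **The mean square converges to the dimension of the commutant.** -/
theorem limit {k : Type} [Field k] [CharZero k] (ι : k →+* ℂ) (ρ : GK F →* GL (Fin n) k)
    (hρ : IsOpen (ρ.ker : Set (GK F)))
    {E : Set (HeightOneSpectrum (𝓞 F))} (hE : DensityZero E) {a : HeightOneSpectrum (𝓞 F) → ℂ}
    (ha : ∀ v, v ∉ E → ∀ P : Ideal (ZBar F), Above v P → ∀ g, FrobAt (Ideal.absNorm v.asIdeal) P g →
      ι (mt ρ g⁻¹).trace = a v) :
    Tendsto (meanSq E a) atTop (𝓝 (finrank k (commutant ρ) : ℝ)) := by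
  classical
  set R : GK F →* GL (Fin n) ℂ := DG.bc ι ρ with hR
  have hker : R.ker = ρ.ker := DG.ker_bc ι ρ
  have hRo : IsOpen (R.ker : Set (GK F)) := by
    rw [hker]
    exact hρ
  have hfinR : Finite (GK F ⧸ R.ker) := Subgroup.quotient_finite_of_isOpen _ hRo
  have hfin : Finite (GK F ⧸ ρ.ker) := Subgroup.quotient_finite_of_isOpen _ hρ
  let _ : Fintype (GK F ⧸ R.ker) := Fintype.ofFinite _
  let _ : Fintype (GK F ⧸ ρ.ker) := Fintype.ofFinite _
  have htr : ∀ g, (mt R g).trace = ι (mt ρ g).trace := by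
    intro g
    rw [hR, DG.mt_bc]
    exact (AddMonoidHom.map_trace ι.toAddMonoidHom _).symm
  have h1 := limit_complex R hRo hE (a := a) (fun v hv P hP g hg => by
    rw [htr]
    exact ha v hv P hP g hg)
  -- a common group
  have h2 := avg (QuotientGroup.kerLift ρ)
  rw [commutant_kerLift] at h2
  have h3 := congrArg ι h2
  rw [map_natCast, map_mul, map_inv₀, map_natCast, map_sum] at h3
  obtain ⟨e, he0, he⟩ := exists_exp R hRo
  have hnorm : ∀ g : GK F, ((‖(mt R g).trace‖ ^ 2 : ℝ) : ℂ) = ι (mt ρ g⁻¹).trace * ι (mt ρ g).trace := by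
    intro g
    rw [← htr, ← htr]
    have h4 : (mt R g⁻¹).trace = star (mt R g).trace := by
      refine trace_inv he0 (he g) ?_
      rw [← mt_mul, mul_inv_cancel]
      unfold Pool.Agent.R401.Img.mt
      rw [map_one, Units.val_one]
    rw [h4]
    have h5 := Complex.conj_mul' (mt R g).trace
    rw [Complex.star_def, h5]
    push_cast
    rfl
  let eq : GK F ⧸ R.ker ≃ GK F ⧸ ρ.ker := (QuotientGroup.quotientMulEquivOfEq hker).toEquiv
  have heq : ∀ g : GK F, eq (g : GK F ⧸ R.ker) = (g : GK F ⧸ ρ.ker) := fun g => rfl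
  have h6 : ((Nat.card (GK F ⧸ R.ker) : ℝ)⁻¹ *
      ∑ γ : GK F ⧸ R.ker, ‖(mt (QuotientGroup.kerLift R) γ).trace‖ ^ 2) = (finrank k (commutant ρ) : ℝ) := by
    have h7 : (((Nat.card (GK F ⧸ R.ker) : ℝ)⁻¹ *
      ∑ γ : GK F ⧸ R.ker, ‖(mt (QuotientGroup.kerLift R) γ).trace‖ ^ 2 : ℝ) : ℂ) =
        ((finrank k (commutant ρ) : ℕ) : ℂ) := by
      rw [← h3]
      rw [Complex.ofReal_mul, Complex.ofReal_inv, Complex.ofReal_natCast, Complex.ofReal_sum]
      rw [Nat.card_congr eq, ← Equiv.sum_comp eq]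
      congr 1
      refine Finset.sum_congr rfl fun γ _ => ?_
      induction γ using QuotientGroup.induction_on with
      | H g =>
        rw [heq, map_mul]
        exact hnorm g
    exact_mod_cast h7
  rw [h6] at h1
  exact h1

end Pool.Agent.U849.IR
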